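import Mathlib
import Pool.Agent.W798.KF.Stm

/-!
# The inequality of Elekes for `A + H` and `A * G`
-/

set_option autoImplicit false

namespace Pool.Agent.W287.KF

open Finset Pool.Agent.W798.SP Pool.Agent.W798.KF
open scoped Classical Pointwise

theorem tKST (hST : S_ST1) : S_KST := by
  intro A H G hA hG
  rcases A.eq_empty_or_nonempty with hA0 | ⟨a0, ha0⟩
  · rw [hA0, Finset.card_empty]
    simp
  by_cases hA2 : 2 ≤ A.card
  · have hL := hST (A + H) (A * G) ((G ×ˢ H).image (fun p : ℝ × ℝ => (p.1, -(p.1 * p.2)))) A.card hA2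
      (by
        intro l hl
        rw [Finset.mem_image] at hl
        obtain ⟨⟨g, h⟩, hp, rfl⟩ := hl
        rw [Finset.mem_product] at hp
        refine ⟨hG g hp.1, ?_⟩
        refine Finset.card_le_card_of_injOn (fun a => a + h) ?_ ?_
        · intro a ha
          have ha' : a ∈ A := ha
          simp only [Finset.coe_filter, Set.mem_setOf_eq]
          refine ⟨Finset.add_mem_add ha' hp.2, ?_⟩
          have h1 : g * (a + h) + -(g * h) = a * g := by ring
          rw [h1]
          exact Finset.mul_mem_mul ha' hp.1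
        · intro a _ b _ hab
          exact add_right_cancel hab)
    have hc : ((G ×ˢ H).image (fun p : ℝ × ℝ => (p.1, -(p.1 * p.2)))).card = G.card * H.card := by
      rw [Finset.card_image_of_injOn, Finset.card_product]
      rintro ⟨g, h⟩ hp ⟨g', h'⟩ hp' he
      have hp1 : (g, h) ∈ G ×ˢ H := hp
      rw [Finset.mem_product] at hp1
      simp only [Prod.mk.injEq, neg_inj] at he
      obtain ⟨h1, h2⟩ := he
      subst h1
      have h3 := mul_left_cancel₀ (hG g hp1.1) h2
      rw [h3]
    rw [hc] at hL
    calc A.card ^ 3 * H.card * G.card = G.card * H.card * A.card ^ 3 := by ring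
      _ ≤ _ := hL
  · have hA1 : A.card = 1 := by
      have h1 : 0 < A.card := Finset.card_pos.2 ⟨a0, ha0⟩
      omega
    have h1 : H.card ≤ (A + H).card := by
      refine Finset.card_le_card_of_injOn (fun h => a0 + h) ?_ ?_
      · intro h hh
        exact Finset.add_mem_add ha0 hh
      · intro x _ y _ hxy
        exact add_left_cancel hxy
    have h2 : G.card ≤ (A * G).card := by
      refine Finset.card_le_card_of_injOn (fun g => a0 * g) ?_ ?_
      · intro g hg
        exact Finset.mul_mem_mul ha0 hg
      · intro x _ y _ hxy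
        exact mul_left_cancel₀ (ne_of_gt (hA a0 ha0)) hxy
    rw [hA1, one_pow, one_mul]
    calc H.card * G.card ≤ (A + H).card * (A * G).card := Nat.mul_le_mul h1 h2
      _ ≤ (A + H).card ^ 2 * (A * G).card ^ 2 :=
          Nat.mul_le_mul (Nat.le_self_pow (by norm_num) _) (Nat.le_self_pow (by norm_num) _)
      _ ≤ 512 * (A + H).card ^ 2 * (A * G).card ^ 2 := by nlinarith [Nat.zero_le ((A + H).card ^ 2 * (A * G).card ^ 2)]

end Pool.Agent.W287.KF
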